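import Pool.Agent.W606.PS.Stm

set_option autoImplicit false

/-! # PS-NB -/

open Set Relation

namespace Pool.Agent.W346.PS.NB

open Pool.Agent.W606.PS

/-- a function which does not change along the edges of a connected set is constant on it -/
theorem const_of_con {V β : Type} {G : SimpleGraph V} {S : Set V} (hS : Con G S) (b : V → β)
    (h : ∀ u ∈ S, ∀ v ∈ S, G.Adj u v → b u = b v) : ∀ u ∈ S, ∀ v ∈ S, b u = b v := by
  intro u hu v hv
  have p := hS.2 u hu v hv
  induction p with
  | refl => rfl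
  | tail _ e ih => exact (ih e.2.1).trans (h _ e.2.1 _ e.2.2 e.1)

theorem main : S_NB := by
  intro V T G tv hS A hA hAc
  obtain ⟨a0, ha0⟩ := hA.1
  obtain ⟨c0, hc0⟩ := hAc.1
  obtain ⟨a1, b1, -, -, ha1, hb1, e1⟩ := hS.conn.exit (mem_univ a0) ha0 (mem_univ c0) hc0
  have hu : b1 ∈ Nb G A := ⟨hb1, a1, ha1, e1⟩
  obtain ⟨N, hN, huN⟩ := exists_comp G hu
  have hsub : Nb G A ⊆ N := by
    intro n hn
    by_contra hnN
    have hdis : Disjoint A N := Set.disjoint_left.2 fun x hx hxN => (hN.1 hxN).1 hx
    obtain ⟨b, hb⟩ := hS.coh A N hdis (by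
      intro t i j hi hj k
      by_cases hk : tv t k ∈ A
      · exact Or.inl hk
      · right
        have hkN : tv t k ∈ Nb G A := by
          rcases hS.clos t i k with h | h
          · exact absurd (h ▸ hi) hk
          · exact ⟨hk, tv t i, hi, h⟩
        rcases hS.clos t j k with h | h
        · exact h ▸ hj
        · exact hN.2.2 _ hj _ hkN h)
    have hcA : ∀ u ∈ A, ∀ v ∈ A, b u = b v := const_of_con hA b (by
      intro u hu v hv e
      by_contra hne
      rcases (hb u v e).1 hne with h | h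
      · exact (Set.disjoint_left.1 hdis) hv h.2
      · exact (Set.disjoint_left.1 hdis) hu h.1)
    have hcB : ∀ u ∈ Aᶜ, ∀ v ∈ Aᶜ, b u = b v := const_of_con hAc b (by
      intro u hu v hv e
      by_contra hne
      rcases (hb u v e).1 hne with h | h
      · exact hu h.1
      · exact hv h.2)
    obtain ⟨a2, ha2, e2⟩ := hn.2
    have k1 : b a1 ≠ b b1 := (hb a1 b1 e1).2 (Or.inl ⟨ha1, huN⟩)
    have k2 : b a2 = b n := by
      by_contra hne
      rcases (hb a2 n e2).1 hne with h | h
      · exact hnN h.2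
      · exact (Set.disjoint_left.1 hdis) ha2 h.1
    exact k1 ((hcA a1 ha1 a2 ha2).trans (k2.trans (hcB n hn.1 b1 hb1)))
  have : Nb G A = N := Subset.antisymm hsub hN.1
  rw [this]
  exact hN.2.1

end Pool.Agent.W346.PS.NB
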