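import Pool.Agent.W606.PS.Stm

set_option autoImplicit false

/-! # PS-QUOT -/

open Set Relation

namespace Pool.Agent.W346.PS.QT

open Pool.Agent.W606.PS

section
variable {X V : Type} {H : SimpleGraph X} {G : SimpleGraph V} {f : X → V}

theorem con_preimage (hf : Function.Surjective f) (hfib : ∀ v, Con H (f ⁻¹' {v}))
    (hadj : ∀ u v, G.Adj u v ↔ u ≠ v ∧ ∃ x y, f x = u ∧ f y = v ∧ H.Adj x y) {S : Set V}
    (hS : Con G S) : Con H (f ⁻¹' S) := by
  obtain ⟨u0, hu0⟩ := hS.1
  obtain ⟨x0, hx0⟩ := hf u0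
  have hfib' : ∀ v ∈ S, ∀ x y, f x = v → f y = v →
      ReflTransGen (fun a b => H.Adj a b ∧ a ∈ f ⁻¹' S ∧ b ∈ f ⁻¹' S) x y := by
    intro v hv x y hx hy
    refine rtg_mono (S := f ⁻¹' {v}) ?_ ((hfib v).2 x hx y hy)
    intro z hz
    have hz' : f z = v := hz
    show f z ∈ S
    rw [hz']
    exact hv
  refine con_of_base (u := x0) (by show f x0 ∈ S; rw [hx0]; exact hu0) ?_
  intro x hx
  have p := hS.2 u0 hu0 (f x) hx
  have key : ∀ w, ReflTransGen (fun a b => G.Adj a b ∧ a ∈ S ∧ b ∈ S) u0 w → ∀ y, f y = w →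
      ReflTransGen (fun a b => H.Adj a b ∧ a ∈ f ⁻¹' S ∧ b ∈ f ⁻¹' S) x0 y := by
    intro w pw
    induction pw with
    | refl => intro y hy; exact hfib' u0 hu0 x0 y hx0 hy
    | @tail c d _ e ih =>
      intro y hy
      obtain ⟨-, x1, y1, hx1, hy1, e1⟩ := (hadj c d).1 e.1
      refine ((ih x1 hx1).tail ⟨e1, ?_, ?_⟩).trans (hfib' d e.2.2 y1 y hy1 hy)
      · show f x1 ∈ S
        rw [hx1]; exact e.2.1
      · show f y1 ∈ S
        rw [hy1]; exact e.2.2
  exact key (f x) p x rfl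

theorem eq_or_adj (hadj : ∀ u v, G.Adj u v ↔ u ≠ v ∧ ∃ x y, f x = u ∧ f y = v ∧ H.Adj x y)
    {x y : X} (h : H.Adj x y) : f x = f y ∨ G.Adj (f x) (f y) := by
  by_cases he : f x = f y
  · exact Or.inl he
  · exact Or.inr ((hadj _ _).2 ⟨he, x, y, rfl, rfl, h⟩)

theorem con_univ (hf : Function.Surjective f)
    (hadj : ∀ u v, G.Adj u v ↔ u ≠ v ∧ ∃ x y, f x = u ∧ f y = v ∧ H.Adj x y)
    (hH : Con H univ) : Con G univ := by
  obtain ⟨x0, -⟩ := hH.1
  refine con_of_base (u := f x0) (mem_univ _) ?_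
  intro v hv
  clear hv
  obtain ⟨x, rfl⟩ := hf v
  have p := hH.2 x0 (mem_univ _) x (mem_univ _)
  induction p with
  | refl => exact ReflTransGen.refl
  | tail _ e ih =>
    rcases eq_or_adj hadj e.1 with h | h
    · rw [← h]; exact ih
    · exact ih.tail ⟨h, mem_univ _, mem_univ _⟩

end

theorem sum_zero (p q : Fin 3 → Prop) [∀ i, Decidable (p i)] [∀ i, Decidable (q i)]
    (h1 : ∀ i, ¬ (p i ∧ q i)) (h2 : ∀ i j, p i → q j → ∀ k, p k ∨ q k) :
    (if (p 1 ∧ q 2) ∨ (q 1 ∧ p 2) then (1 : ZMod 2) else 0) +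
      (if (p 2 ∧ q 0) ∨ (q 2 ∧ p 0) then (1 : ZMod 2) else 0) +
      (if (p 0 ∧ q 1) ∨ (q 0 ∧ p 1) then (1 : ZMod 2) else 0) = 0 := by
  have e2 : (1 : ZMod 2) + 1 = 0 := rfl
  have a0 := h1 0
  have a1 := h1 1
  have a2 := h1 2
  have b01 := h2 0 1
  have b02 := h2 0 2
  have b10 := h2 1 0
  have b12 := h2 1 2
  have b20 := h2 2 0
  have b21 := h2 2 1
  have c0 : ∀ {P : Fin 3 → Prop}, (∀ k, P k) ↔ (P 0 ∧ P 1 ∧ P 2) := by
    intro P
    constructor
    · intro h; exact ⟨h 0, h 1, h 2⟩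
    · rintro ⟨x, y, z⟩ k
      fin_cases k
      · exact x
      · exact y
      · exact z
  rw [c0] at b01 b02 b10 b12 b20 b21
  by_cases p0 : p 0 <;> by_cases p1 : p 1 <;> by_cases p2 : p 2 <;> by_cases q0 : q 0 <;>
    by_cases q1 : q 1 <;> by_cases q2 : q 2 <;> simp_all

theorem main (h1 : S_FC) (h2 : S_FT2) : S_QUOT := by
  classical
  intro X E T _ _ _ K hK V G f hf hfib hadj
  have hpre : ∀ {S : Set V}, Con G S → Con K.gr (f ⁻¹' S) := fun hS =>
    con_preimage hf hfib hadj hS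
  -- two slots of a triangle
  have hpair : ∀ t i, K.tv t (i + 1) = K.tv t (i + 2) ∨
      K.gr.Adj (K.tv t (i + 1)) (K.tv t (i + 2)) := by
    intro t i
    by_cases he : K.tv t (i + 1) = K.tv t (i + 2)
    · exact Or.inl he
    · right
      unfold Cx.gr
      rw [SimpleGraph.fromRel_adj]
      refine ⟨he, ?_⟩
      rcases Sym2.eq_iff.1 (K.inc t i) with h | h
      · exact Or.inl ⟨_, h.1, h.2⟩
      · exact Or.inr ⟨_, h.1, h.2⟩
  have hslot : ∀ t i j, K.tv t i = K.tv t j ∨ K.gr.Adj (K.tv t i) (K.tv t j) := by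
    intro t i j
    have key : ∀ a b : Fin 3, a = b ∨ (∃ k : Fin 3, a = k + 1 ∧ b = k + 2) ∨
        (∃ k : Fin 3, a = k + 2 ∧ b = k + 1) := by decide
    rcases key i j with h | ⟨k, rfl, rfl⟩ | ⟨k, rfl, rfl⟩
    · exact Or.inl (by rw [h])
    · exact hpair t k
    · rcases hpair t k with h | h
      · exact Or.inl h.symm
      · exact Or.inr h.symm
  refine ⟨con_univ hf hadj hK.conn, ?_, ?_, ?_, ?_⟩
  · intro t i j
    rcases hslot t i j with h | h
    · exact Or.inl (by rw [h])
    · exact eq_or_adj hadj h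
  · intro P Q hPQ hH
    let κ : X → X → ZMod 2 := fun x y =>
      if (f x ∈ P ∧ f y ∈ Q) ∨ (f x ∈ Q ∧ f y ∈ P) then 1 else 0
    have hκs : ∀ x y, κ x y = κ y x := by
      intro x y
      simp only [κ]
      congr 1
      apply propext
      constructor
      · rintro (⟨a, b⟩ | ⟨a, b⟩)
        · exact Or.inr ⟨b, a⟩
        · exact Or.inl ⟨b, a⟩
      · rintro (⟨a, b⟩ | ⟨a, b⟩)
        · exact Or.inr ⟨b, a⟩
        · exact Or.inl ⟨b, a⟩
    have hte : ∀ t i, κ (K.e (K.te t i) 0) (K.e (K.te t i) 1) =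
        κ (K.tv t (i + 1)) (K.tv t (i + 2)) := by
      intro t i
      rcases Sym2.eq_iff.1 (K.inc t i) with h | h
      · rw [h.1, h.2]
      · rw [h.1, h.2, hκs]
    obtain ⟨b, hb⟩ := h1 X E T K hK (fun a => κ (K.e a 0) (K.e a 1)) (by
      intro t
      show κ _ _ + κ _ _ + κ _ _ = 0
      rw [hte, hte, hte]
      have := sum_zero (fun i => f (K.tv t i) ∈ P) (fun i => f (K.tv t i) ∈ Q)
        (fun i hi => Set.disjoint_left.1 hPQ hi.1 hi.2) (fun i j hi hj k => hH t i j hi hj k)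
      exact this)
    have hedge : ∀ x y, K.gr.Adj x y → κ x y = b x + b y := by
      intro x y hxy
      unfold Cx.gr at hxy
      rw [SimpleGraph.fromRel_adj] at hxy
      rcases hxy.2 with ⟨a, ha0, ha1⟩ | ⟨a, ha0, ha1⟩
      · have := hb a
        rw [ha0, ha1] at this
        exact this
      · have := hb a
        rw [ha0, ha1] at this
        rw [hκs, add_comm]
        exact this
    have hzz : ∀ s t : ZMod 2, s + t = 0 → s = t := by decide
    have hfibre : ∀ v x y, f x = v → f y = v → b x = b y := by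
      intro v x y hx hy
      have p := (hfib v).2 x hx y hy
      clear hy
      induction p with
      | refl => rfl
      | @tail c d _ e ih =>
        have hc : f c = v := e.2.1
        have hd : f d = v := e.2.2
        have h0 : κ c d = 0 := by
          simp only [κ]
          rw [if_neg]
          rintro (⟨h3, h4⟩ | ⟨h3, h4⟩)
          · rw [hc] at h3
            rw [hd] at h4
            exact Set.disjoint_left.1 hPQ h3 h4
          · rw [hc] at h3
            rw [hd] at h4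
            exact Set.disjoint_left.1 hPQ h4 h3
        have h3 := hedge c d e.1
        rw [h0] at h3
        exact ih.trans (hzz _ _ h3.symm)
    refine ⟨fun v => decide (b (Function.surjInv hf v) = 1), ?_⟩
    intro u v huv
    obtain ⟨-, x, y, hx, hy, exy⟩ := (hadj u v).1 huv
    have hbu : b (Function.surjInv hf u) = b x := hfibre u _ _ (Function.surjInv_eq hf u) hx
    have hbv : b (Function.surjInv hf v) = b y := hfibre v _ _ (Function.surjInv_eq hf v) hy
    show (decide (b (Function.surjInv hf u) = 1) ≠ decide (b (Function.surjInv hf v) = 1)) ↔ _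
    rw [hbu, hbv]
    have hk := hedge x y exy
    have hcond : (u ∈ P ∧ v ∈ Q ∨ u ∈ Q ∧ v ∈ P) ↔ κ x y = 1 := by
      simp only [κ]
      rw [hx, hy]
      by_cases hc : (u ∈ P ∧ v ∈ Q ∨ u ∈ Q ∧ v ∈ P)
      · simp [hc]
      · rw [if_neg hc]
        simp [hc]
    rw [hcond, hk]
    have : ∀ s t : ZMod 2, (decide (s = 1) ≠ decide (t = 1)) ↔ s + t = 1 := by decide
    exact this _ _
  · intro Z hZ hd hc t ht
    have hev := (h2 X E T K hK (fun i => f ⁻¹' (Z i)) (fun i => hpre (hZ i))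
      (fun i j hij => (hd i j hij).preimage f) (by rw [← preimage_iUnion, hc, preimage_univ])).1
    by_contra hno
    push Not at hno
    have hset : {t | Rain K.tv (fun i => f ⁻¹' (Z i)) t} = {t} := by
      ext t'
      constructor
      · intro ht'
        by_contra hne
        exact hno t' hne ht'
      · intro ht'
        rw [mem_singleton_iff.1 ht']
        exact ht
    rw [hset, ncard_singleton] at hev
    exact absurd hev (by decide)
  · intro Z hZ hd hc t1 t2 t3 ht1 ht2 ht3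
    have hle := (h2 X E T K hK (fun i => f ⁻¹' (Z i)) (fun i => hpre (hZ i))
      (fun i j hij => (hd i j hij).preimage f) (by rw [← preimage_iUnion, hc, preimage_univ])).2
    by_contra hno
    push Not at hno
    have hsub : ({t1, t2, t3} : Set T) ⊆ {t | Rain K.tv (fun i => f ⁻¹' (Z i)) t} := by
      rintro t (rfl | rfl | rfl)
      · exact ht1
      · exact ht2
      · exact ht3
    have h3 := ncard_le_ncard hsub (toFinite _)
    have h4 : ({t1, t2, t3} : Set T).ncard = 3 :=
      ncard_eq_three.2 ⟨t1, t2, t3, hno.1, hno.2.1, hno.2.2, rfl⟩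
    omega

end Pool.Agent.W346.PS.QT
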